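import Pool.Agent.Y30.AB.Fin
import Pool.Agent.TH456.TM.Inst
import Pool.Agent.TH456.TM.AlgDep

/-!
# Expansions of `π` in algebraic bases: windows, errors, and algebraic relations of bounded degree

Let `β` be an algebraic number with `|β| > 1` (for instance `β = 10`, `β = -2`, `β = i - 1`, a
Pisot or Salem number, `√2 + 1`, `3 / 2`, ...), and let `π = ∑ a_n / β ^ n` with integers `a_n` of
at most polynomial growth (any digits, so that the expansion may be highly redundant: the greedy
and lazy `β`-expansions, signed digits, and uncountably many others if the digit set is large).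

If the window `a_u, …, a_{u+L-1}` is changed at `t` places and if the series
`W(z) = w_0 + w_1 z + ⋯ + w_{L-1} z^{L-1}` of the changed window is a root of a polynomial
`h(z, Y) ≠ 0` of degree at most `k` in `Y` and at most `m` in `z`, up to an error `O(z^L)`, then
`L ≤ c^(t+1) (u + m + 1)` with `c` depending only on `β`, `k` and the growth of the digits, not
on the expansion, on the window or on the errors.

The case `k = 1` is the statement that the `t`-error linear complexity (over `ℂ`, with complex
numbers as changed digits) of the window is at least `c^(-t-1) L - u - 1`. For instance the digits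
from the `u`-th to the `(u+L)`-th one do not satisfy a recurrence of order `m`, and in particular
are not periodic with period `m`, once `L > c (u + m + 1)`. The case of general `k` says that the
series of the window does not agree to a large order with an algebraic function of degree `≤ k`.

The same is true for every number `x` which is transcendental and algebraic over `ℚ(π)`
(`π^2`, `1/π`, `√π`, `π + √2`, ...).

The starting files `LinearComplexityOfPi` and `ErrorComplexityOfPi` have the case `k = 1` for the
standard expansion in integer bases, `u = 0` (with explicit constants).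
-/

set_option autoImplicit false

namespace Pool.Agent.Results.MP_57632f_nt.AlgebraicBases

open Polynomial Finset

/-- Let `x = π`, or let `x` be a number that is transcendental and algebraic over `ℤ[π]`; let `β`
be algebraic with `|β| > 1`, and let `k, B` be natural numbers. There is `c` such that for every
expansion `x = ∑ a_n / β ^ n` with integers `|a_n| ≤ B (n + 1) ^ B`, for every window
`a_u, …, a_{u+L-1}`, and every sequence `w` of complex numbers which differs from the window at no
more than `t` places: if `h(z, w_0 + w_1 z + ⋯ + w_{L-1} z^(L-1))` is divisible by `z ^ L`, where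
`h ≠ 0` has degree at most `k` in the second variable and at most `m` in `z`, then
`L ≤ c ^ (t + 1) (u + m + 1)`. -/
theorem result (x : ℂ)
    (hx : x = (Real.pi : ℂ) ∨
      IsAlgebraic (Algebra.adjoin ℤ ({(Real.pi : ℂ)} : Set ℂ)) x ∧ Transcendental ℤ x)
    (β : ℂ) (hβ : IsAlgebraic ℤ β) (hβ1 : 1 < ‖β‖) (k B : ℕ) :
    ∃ c : ℕ, ∀ a : ℕ → ℤ, (∀ n, |a n| ≤ B * ((n : ℤ) + 1) ^ B) →
      HasSum (fun n => (a n : ℂ) / β ^ n) x →
      ∀ (u L m t : ℕ) (w : ℕ → ℂ),
        ((range L).filter fun n => w n ≠ a (u + n)).card ≤ t →
        ∀ h : ℂ[X][X], h ≠ 0 → h.natDegree ≤ k → (∀ j, (h.coeff j).natDegree ≤ m) →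
          X ^ L ∣ h.eval (∑ n ∈ range L, C (w n) * X ^ n) →
          L ≤ c ^ (t + 1) * (u + m + 1) := by
  have hM : Pool.Agent.TH456.TM.MeasT x := by
    rcases hx with rfl | ⟨h1, h2⟩
    · exact Pool.Agent.TH456.TM.measT_pi
    · exact Pool.Agent.TH456.TM.measT_of_isAlgebraic Pool.Agent.TH456.TM.measT_pi x h1 h2
  have hβ0 : β ≠ 0 := by
    rintro rfl
    rw [norm_zero] at hβ1
    linarith
  have hτ1 : ‖β⁻¹‖ < 1 := by
    rw [norm_inv]
    exact inv_lt_one_of_one_lt₀ hβ1
  obtain ⟨P, hP, hP0⟩ := hβ.inv
  obtain ⟨c, hc⟩ := Pool.Agent.Y30.AB.windows x hM β⁻¹ (inv_ne_zero hβ0) hτ1 ⟨P, hP, hP0⟩ k B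
  refine ⟨c, fun a ha hs u L m t w hw h hh hk hm hd => ?_⟩
  refine hc a ha ?_ u L m t w hw h hh hk hm hd
  convert hs using 2 with n
  rw [inv_pow, div_eq_mul_inv]

end Pool.Agent.Results.MP_57632f_nt.AlgebraicBases
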