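import Mathlib
import Pool.Agent.Y949.PiM
import Pool.Agent.Y949.MP.Mult

/-!
All blocks of digits occur often in the expansions of most of the numbers `x + m π`, `m < M`.
-/

set_option autoImplicit false

open Finset Filter

namespace Pool.Agent.Results.MP_57632f_nt.BlocksInMostMultiples

/-- the number of places `i < n` such that the `k` digits of `y` in base `b` after the `i`-th one are
`w 0, …, w (k - 1)` (the `j`-th digit of `y` is `⌊y b ^ j⌋ mod b`) -/
noncomputable def count (b k : ℕ) (w : Fin k → Fin b) (y : ℝ) (n : ℕ) : ℕ :=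
  {i : ℕ | i < n ∧ ∀ s : Fin k, ⌊y * (b : ℝ) ^ (i + s + 1)⌋ % (b : ℤ) = ((w s : ℕ) : ℤ)}.ncard

lemma count_eq (b k : ℕ) (w : Fin k → Fin b) (y : ℝ) (n : ℕ) :
    count b k w y n = Pool.Agent.W226.MP.occ b k w y 0 n := by
  classical
  unfold count Pool.Agent.W226.MP.occ Pool.Agent.W226.MP.OccursAt Pool.Agent.W226.MP.digit
  rw [← Set.ncard_coe_finset]
  congr 1
  ext i
  simp only [Set.mem_ofPred_eq, Finset.coe_filter, Finset.mem_range, zero_add]

/-- Let `b ≥ 2`, `k ≥ 1` and `0 < ε < 1`. There are `c, C > 0` such that for all real `x`, all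
`M ≥ 2` and all `n`, and for all but at most `C M ^ (1 - c)` of the `m < M`, every block of `k`
digits in base `b` occurs at least
`(1 - ε) (log M / (b ^ k log b)) (log (n / (C log M)) / log 6.05)` times at the first `n` places of
`x + m π`. -/
theorem result (b k : ℕ) (hb : 2 ≤ b) (hk : 1 ≤ k) (ε : ℝ) (hε : 0 < ε) (hε1 : ε < 1) :
    ∃ c C : ℝ, 0 < c ∧ 0 < C ∧ ∀ (x : ℝ) (M n : ℕ), 2 ≤ M →
      (({m : ℕ | m < M ∧ ¬ ∀ w : Fin k → Fin b,
        (1 - ε) * (Real.log M / ((b : ℝ) ^ k * Real.log b)) *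
          (Real.log (n / (C * Real.log M)) / Real.log 6.05) ≤
            (count b k w (x + m * Real.pi) n : ℝ)}.ncard : ℕ) : ℝ) ≤ C * (M : ℝ) ^ (1 - c) := by
  classical
  obtain ⟨c0, hc0, hx⟩ := Pool.Agent.Y949.pi_measure
  obtain ⟨c, C, hc, hC, h⟩ := Pool.Agent.Y949.MP.mult Real.pi 5.05 c0 irrational_pi (by norm_num)
    hc0 hx b k hb hk ε hε hε1
  have e : (1 : ℝ) + 5.05 = 6.05 := by norm_num
  rw [e] at h
  refine ⟨c, C, hc, hC, fun x M n hM => ?_⟩
  refine le_trans (Nat.cast_le.2 ?_) (h x M n hM)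
  rw [← Set.ncard_coe_finset]
  refine Set.ncard_le_ncard ?_ (Finset.finite_toSet _)
  rintro m ⟨hm, h2⟩
  push Not at h2
  obtain ⟨w, hw⟩ := h2
  rw [count_eq] at hw
  rw [Finset.mem_coe, Finset.mem_filter, Finset.mem_range]
  exact ⟨hm, w, hw⟩

end Pool.Agent.Results.MP_57632f_nt.BlocksInMostMultiples
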