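import Pool.Agent.Y844.DM.PermT
import Pool.Agent.H847R3.SuppF

/-!
# Digit tests for the multiples of `π` by the rearrangements of the digits of an arbitrary integer

Definitions used, from `Pool.Agent.TH872.An1`: `Spread b k η d`: the integers `d i` (`i < k`) are digits in
base `b`, and no digit is taken at more than `(1 - η) k` of the `k` places `i`; `V b d σ`: the integer with the
permuted digits, thus the integer with the digit `d (σ i)` at the place `i`, in base `b`.
From Mathlib: `Liouville x`: `x` is a Liouville number (for every `n` there are integers `a` and `b > 1` with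
`0 < |x - a / b| < 1 / b ^ n`).
-/

set_option autoImplicit false

namespace Pool.Agent.Results.MP_57632f_nt.RearrangedMultiples

open Finset MeasureTheory
open Pool.Agent.TH872.An (Spread V)

/-- `t` passes the test: for all `i < K` the fractional part of `q i ^ n i * t` lies in `[u i, v i)`. (If `u i` and
`v i` are consecutive multiples of `1 / q i ^ m`, this prescribes the digits of `t` at the places
`n i + 1, ..., n i + m` in base `q i`, for instance `q i = 10`.) -/
def Test {K : ℕ} (q n : Fin K → ℕ) (u v : Fin K → ℝ) (t : ℝ) : Prop :=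
  ∀ i, Int.fract ((q i : ℝ) ^ n i * t) ∈ Set.Ico (u i) (v i)

/-- The probability that a random real number in `[0, 1)` passes the test. -/
noncomputable def expected {K : ℕ} (q n : Fin K → ℕ) (u v : Fin K → ℝ) : ℝ :=
  (volume {t : ℝ | t ∈ Set.Ico (0 : ℝ) 1 ∧ Test q n u v t}).toReal

lemma leb_eq {K : ℕ} (q n : Fin K → ℕ) (u v : Fin K → ℝ) :
    Pool.Agent.Y933.KD.Leb.real (Pool.Agent.Y933.KD.Ev q n u v) = expected q n u v := by
  unfold Measure.real Pool.Agent.Y933.KD.Leb expected Test
  rw [Measure.restrict_apply (Pool.Agent.Y933.KD.measurableSet_Ev q n u v)]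
  congr 2
  ext t
  constructor
  · rintro ⟨h3, h4⟩
    exact ⟨h4, h3⟩
  · rintro ⟨h3, h4⟩
    exact ⟨h4, h3⟩

/-- Let `x` be `π` or any other irrational number which is not a Liouville number, let `b ≥ 2`, `η > 0`, `B`, `K` and
`0 < ε < 1` be fixed. There are `δ > 0` and `C` such that the following holds for all `k ≥ 1` and every sequence `d` of `k`
digits in base `b` none of which is taken at more than `(1 - η) k` places. For all integers `κ ≠ 0` with
`|κ| ≤ exp (k ^ (1 - ε))`, all real `y`, all bases `1 ≤ q i ≤ B`, all places `n i ≤ k ^ (1 - ε)` and all intervals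
`[u i, v i)` in `[0, 1]`, `i < K`, the proportion of the permutations `σ` of the `k` places for which `κ a x + y` passes
the test (the fractional parts of `q i ^ n i * (κ a x + y)` are in `[u i, v i)` for all `i < K`), where `a` is the integer with the
permuted digits, differs from the probability with which a random real number passes the test by at most `C k ^ (-δ)`. -/
theorem result (x : ℝ) (hx : x = Real.pi ∨ (Irrational x ∧ ¬ Liouville x)) (b : ℕ) (hb : 2 ≤ b)
    (η : ℝ) (hη : 0 < η) (B K : ℕ) (ε : ℝ) (hε : 0 < ε) (hε1 : ε < 1) :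
    ∃ δ : ℝ, 0 < δ ∧ ∃ C : ℝ, ∀ k : ℕ, 1 ≤ k → ∀ d : Fin k → ℕ, Spread b k η d →
      ∀ (κ : ℤ) (y : ℝ), κ ≠ 0 → |(κ : ℝ)| ≤ Real.exp ((k : ℝ) ^ (1 - ε)) →
      ∀ q n : Fin K → ℕ, (∀ i, 1 ≤ q i ∧ q i ≤ B) → (∀ i, (n i : ℝ) ≤ (k : ℝ) ^ (1 - ε)) →
      ∀ u v : Fin K → ℝ, (∀ i, 0 ≤ u i) → (∀ i, v i ≤ 1) →
      |(Nat.card {σ : Equiv.Perm (Fin k) // Test q n u v (κ * (V b d σ : ℝ) * x + y)} : ℝ) / (k.factorial : ℝ) -
        expected q n u v| ≤ C * (k : ℝ) ^ (-δ) := by
  classical
  have hx' : Irrational x ∧ ¬ Liouville x := by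
    rcases hx with rfl | h
    · exact Pool.Agent.H847R3.XpXq.pi_good
    · exact h
  obtain ⟨τ, hτ⟩ := Pool.Agent.Y844.DM.dio_of x hx'.1 hx'.2
  obtain ⟨δ, hδ, C, h⟩ := Pool.Agent.Y844.DM.perm_tests b hb η hη B K ε hε hε1 τ
  refine ⟨δ, hδ, C, fun k hk d hd κ y hκ hκ1 q n hq hn u v hu hv => ?_⟩
  have key := h k hk d hd x hτ κ y q n u v ⟨hκ, hκ1, hq, hn, hu, hv⟩
  rw [leb_eq] at key
  rw [Nat.card_eq_fintype_card, Fintype.card_subtype]
  exact key

end Pool.Agent.Results.MP_57632f_nt.RearrangedMultiples
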