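import Mathlib
import Pool.Agent.Y949.LW.Pi

/-!
Every word stands often in every long window of the digits of almost all the numbers
`a q ^ n π`.
-/

set_option autoImplicit false

/-- Let `b, q ≥ 2`, where `b` and `q` are coprime or `b = q v` with `v ≥ 2` coprime to `q` (for
`b = 10` the base `q` may be `2`, `5` or any number coprime to `10`). Let `C > 5.05`, let
`ε, δ > 0`, and let `k, R` be arbitrary. If `M` is large, then for all `J` and all `a ≥ 1` and for
all but at most `δ M` of the numbers `n` with `J ≤ n < J + M` the following holds: for every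
`u ≤ R (J + M)` every word of `k` digits in base `b` stands at least `M ^ (1 - ε)` times in the
window of the digits of `a q ^ n π` between the `u`-th digit and the place
`u + C (u + log_b (a q ^ n))`. The word with value `W` (its digits are those of `W` in base `b`,
with leading zeros) stands in `y` right after the `i`-th digit if and only if
`⌊b ^ (i + k) y⌋ mod b ^ k = W`. -/
theorem Pool.Agent.Results.MP_57632f_nt.WordsInLongWindows.result (b q : ℕ) (hb : 2 ≤ b)
    (hq : 2 ≤ q)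
    (hbq : Nat.Coprime b q ∨ ∃ v : ℕ, 2 ≤ v ∧ Nat.Coprime q v ∧ b = q * v) (k R : ℕ)
    (C ε δ : ℝ) (hC : 5.05 < C) (hε : 0 < ε) (hδ : 0 < δ) :
    ∃ M₀ : ℕ, ∀ M J a : ℕ, M₀ ≤ M → 1 ≤ a →
      (({n : ℕ | J ≤ n ∧ n < J + M ∧ ¬ ∀ u : ℕ, u ≤ R * (J + M) → ∀ W : ℕ, W < b ^ k →
        (M : ℝ) ^ (1 - ε) ≤ (({i : ℕ | u ≤ i ∧
          (i : ℝ) + k ≤ u + C * (u + Real.log (a * (q : ℝ) ^ n) / Real.log b) ∧
          ⌊(b : ℝ) ^ (i + k) * (a * (q : ℝ) ^ n * Real.pi)⌋ % ((b : ℤ) ^ k) =
            (W : ℤ)}.ncard : ℕ) : ℝ)}.ncard : ℕ) : ℝ) ≤ δ * M := by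
  classical
  obtain ⟨M₀, hM₀⟩ := Pool.Agent.Y949.LW.words_pi b q hb hq hbq k R C ε δ hC hε hδ
  refine ⟨M₀, fun M J a hM ha => ?_⟩
  refine le_trans (Nat.cast_le.2 ?_) (hM₀ M J a hM ha)
  refine le_trans (Set.ncard_le_ncard ?_ ((Finset.finite_toSet _).image (fun t => J + t)))
    ((Set.ncard_image_le (Finset.finite_toSet _)).trans (Set.ncard_coe_finset _).le)
  rintro n ⟨h1, h2, h3⟩
  refine ⟨n - J, ?_, by simp only; omega⟩
  rw [Finset.mem_coe, Finset.mem_filter, Finset.mem_range]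
  refine ⟨by omega, fun h4 => h3 fun u hu W hW => ?_⟩
  have h5 := h4 u hu W hW
  have e1 : J + (n - J) = n := by omega
  rw [e1] at h5
  have haR : (0 : ℝ) < a := by exact_mod_cast ha
  have hqR : (0 : ℝ) < (q : ℝ) ^ n := by positivity
  have e2 : Real.log (a * (q : ℝ) ^ n) = Real.log a + (n : ℝ) * Real.log q := by
    rw [Real.log_mul haR.ne' hqR.ne', Real.log_pow]
  rw [e2]
  exact h5
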